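import Pool.Agent.MWS.StmtsA

/-!
Squad MWS (MP_23468a_al), row CHN: chains of block words.
-/

set_option autoImplicit false

namespace Pool.Agent.MWS.H45

open Pool.Agent.Helper14_MV Pool.Agent.Helper2_MV Pool.Agent.MVO Pool.Agent.MWL Pool.Agent.MWS

/-- ROW CHN -/
theorem chn (h1 : NrmStmt) : ChnStmt := by
  intro β ρ σ hβ hρ hσ nρ nσ k B v hB hv
  have key : ∀ w : Word, Relation.ReflTransGen (FIC.stp ρ σ) (FreeMonoid.ofList (asm k B)) w →
      ∃ B' : ℕ → List ℕ, FreeMonoid.toList w = asm k B' ∧ OkB k B' ∧ Sub k B B' ∧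
        Relation.ReflTransGen (StM ρ σ k) B B' := by
    intro w hw
    induction hw with
    | refl => exact ⟨B, rfl, hB, fun _ h => h, Relation.ReflTransGen.refl⟩
    | @tail w w' _ hs ih =>
      obtain ⟨B1, e1, ok1, s1, c1⟩ := ih
      have e1' : FreeMonoid.ofList (asm k B1) = w := by
        rw [← e1]
        rfl
      have e2' : FreeMonoid.ofList (FreeMonoid.toList w') = w' := rfl
      rcases hs with hs | hs
      · have h3 : RR ρ (asm k B1) (FreeMonoid.toList w') := by
          unfold RR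
          rw [e1', e2']
          exact hs
        obtain ⟨B2, e2, ok2, s2⟩ := h1 β ρ hβ hρ nρ k B1 _ ok1 h3
        refine ⟨B2, e2, ok2, fun c hc => s1 c (s2 c hc), c1.tail ⟨ok1, ok2, s2, Or.inl ?_⟩⟩
        rw [← e2]
        exact h3
      · have h3 : RR σ (asm k B1) (FreeMonoid.toList w') := by
          unfold RR
          rw [e1', e2']
          exact hs
        obtain ⟨B2, e2, ok2, s2⟩ := h1 β σ hβ hσ nσ k B1 _ ok1 h3
        refine ⟨B2, e2, ok2, fun c hc => s1 c (s2 c hc), c1.tail ⟨ok1, ok2, s2, Or.inr ?_⟩⟩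
        rw [← e2]
        exact h3
  obtain ⟨B', e, ok, s, c⟩ := key (FreeMonoid.ofList v) hv
  exact ⟨B', e, ok, s, c⟩

end Pool.Agent.MWS.H45
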